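import Mathlib

set_option autoImplicit false
set_option linter.unusedSectionVars false

namespace Pool.Agent.H810Z.LB

open Filter Topology Finset

/-- Square summable sequences. -/
abbrev LL (G : Type) [NormedAddCommGroup G] : Type := lp (fun _ : ℕ => G) 2

variable {G : Type} [NormedAddCommGroup G] [InnerProductSpace ℂ G]

theorem hasSum_sq (x : LL G) : HasSum (fun i => ‖x i‖ ^ 2) (‖x‖ ^ 2) := by
  simpa using lp.hasSum_norm (p := 2) (by simp) x

theorem mem_of_summable {f : ℕ → G} (h : Summable fun i => ‖f i‖ ^ 2) : Memℓp f 2 :=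
  memℓp_gen (by simpa using h)

/-- A bounded operator given by a coordinate formula. -/
noncomputable def mkOp {A : Type} [NormedAddCommGroup A] [NormedSpace ℂ A] (L : A →ₗ[ℂ] (ℕ → G))
    (h : ∀ a, Summable fun i => ‖L a i‖ ^ 2) (h' : ∀ a, ∑' i, ‖L a i‖ ^ 2 ≤ ‖a‖ ^ 2) :
    A →L[ℂ] LL G :=
  LinearMap.mkContinuous
    { toFun := fun a => ⟨L a, mem_of_summable (h a)⟩
      map_add' := fun p q => lp.ext (map_add L p q)
      map_smul' := fun c p => lp.ext (map_smul L c p) } 1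
    (fun a => by
      rw [one_mul, ← sq_le_sq₀ (norm_nonneg _) (norm_nonneg _), ← (hasSum_sq _).tsum_eq]
      exact h' a)

theorem mkOp_norm {A : Type} [NormedAddCommGroup A] [NormedSpace ℂ A] (L : A →ₗ[ℂ] (ℕ → G))
    (h : ∀ a, Summable fun i => ‖L a i‖ ^ 2) (h' : ∀ a, ∑' i, ‖L a i‖ ^ 2 ≤ ‖a‖ ^ 2) (a : A) :
    ‖mkOp L h h' a‖ ≤ ‖a‖ := by
  rw [← sq_le_sq₀ (norm_nonneg _) (norm_nonneg _), ← (hasSum_sq _).tsum_eq]
  exact h' a

/-- Composition with an injection. -/
noncomputable def pull (f : ℕ → ℕ) (hf : Function.Injective f) : LL G →L[ℂ] LL G :=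
  mkOp { toFun := fun x i => x (f i), map_add' := fun _ _ => rfl, map_smul' := fun _ _ => rfl }
    (fun x => (hasSum_sq x).summable.comp_injective hf)
    (fun x => (tsum_comp_le_tsum_of_inj (hasSum_sq x).summable (fun _ => sq_nonneg _) hf).trans
      (hasSum_sq x).tsum_eq.le)

theorem pull_apply (f : ℕ → ℕ) (hf : Function.Injective f) (x : LL G) (i : ℕ) :
    pull f hf x i = x (f i) := rfl

theorem pull_norm (f : ℕ → ℕ) (hf : Function.Injective f) (x : LL G) : ‖pull f hf x‖ ≤ ‖x‖ :=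
  mkOp_norm _ _ _ x

/-- The backward shift. -/
noncomputable def back : LL G →L[ℂ] LL G := pull Nat.succ Nat.succ_injective

theorem back_apply (x : LL G) (i : ℕ) : back x i = x (i + 1) := rfl

theorem norm_split {x y : LL G} (h : ∀ i, y i = x (i + 1)) : ‖x‖ ^ 2 = ‖x 0‖ ^ 2 + ‖y‖ ^ 2 := by
  rw [← (hasSum_sq x).tsum_eq, ← (hasSum_sq y).tsum_eq, (hasSum_sq x).summable.tsum_eq_zero_add]
  simp only [h]

/-- Pointwise application of a contraction. -/
noncomputable def mapU (U : G →L[ℂ] G) (hU : ∀ v, ‖U v‖ ≤ ‖v‖) : LL G →L[ℂ] LL G :=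
  mkOp
    { toFun := fun x i => U (x i)
      map_add' := fun _ _ => funext fun _ => map_add U _ _
      map_smul' := fun _ _ => funext fun _ => map_smul U _ _ }
    (fun x => Summable.of_nonneg_of_le (fun _ => sq_nonneg _)
      (fun _ => pow_le_pow_left₀ (norm_nonneg _) (hU _) 2) (hasSum_sq x).summable)
    (fun x => ((Summable.of_nonneg_of_le (fun _ => sq_nonneg _)
      (fun _ => pow_le_pow_left₀ (norm_nonneg _) (hU _) 2) (hasSum_sq x).summable).tsum_le_tsum
      (fun _ => pow_le_pow_left₀ (norm_nonneg _) (hU _) 2) (hasSum_sq x).summable).trans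
      (hasSum_sq x).tsum_eq.le)

theorem mapU_apply (U : G →L[ℂ] G) (hU : ∀ v, ‖U v‖ ≤ ‖v‖) (x : LL G) (i : ℕ) :
    mapU U hU x i = U (x i) := rfl

theorem mapU_single (U : G →L[ℂ] G) (hU : ∀ v, ‖U v‖ ≤ ‖v‖) (s : ℕ) (v : G) :
    mapU U hU (lp.single 2 s v) = lp.single 2 s (U v) := by
  refine lp.ext (funext fun i => ?_)
  rw [mapU_apply]
  by_cases h : i = s
  · subst h
    simp
  · rw [lp.single_apply_ne _ _ _ h, lp.single_apply_ne _ _ _ h, map_zero]

/-- Putting a new first entry. -/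
def consF (v : G) (y : ℕ → G) : ℕ → G
  | 0 => v
  | n + 1 => y n

theorem consF_mem (v : G) (y : LL G) : Memℓp (consF v y) 2 := by
  refine mem_of_summable ((summable_nat_add_iff (f := fun n => ‖consF v y n‖ ^ 2) 1).mp ?_)
  simp only [consF]
  exact (hasSum_sq y).summable

/-- Putting a new first entry. -/
noncomputable def consL : G × LL G →ₗ[ℂ] LL G where
  toFun p := ⟨consF p.1 p.2, consF_mem p.1 p.2⟩
  map_add' p q := lp.ext (funext fun n => by cases n <;> rfl)
  map_smul' c p := lp.ext (funext fun n => by cases n <;> rfl)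

theorem cons_norm (v : G) (y : LL G) : ‖consL (v, y)‖ ^ 2 = ‖v‖ ^ 2 + ‖y‖ ^ 2 :=
  norm_split (x := consL (v, y)) fun _ => rfl

/-- The unit vectors. -/
noncomputable def ee (c : ℕ) : LL ℂ := lp.single 2 c 1

theorem ee_apply (c j : ℕ) : ee c j = if j = c then 1 else 0 := by
  simp [ee, lp.single_apply, Pi.single_apply]

theorem ee_norm (c : ℕ) : ‖ee c‖ = 1 := by
  rw [ee, lp.norm_single (by norm_num), norm_one]

theorem exists_U : ∃ U : LL ℂ →L[ℂ] LL ℂ, (∀ v, ‖U v‖ ≤ ‖v‖) ∧ (∀ c, 1 / 8 ≤ ‖U (ee c)‖) ∧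
    ∀ c, U (ee c) = (4 : ℂ) • (U (ee (2 * c + 2)) - U (ee (2 * c + 3))) := by
  have i0 : ∀ k : ℕ, Function.Injective fun w : ℕ => 2 * w + k := fun k a b h => by
    simp only at h
    omega
  set A : LL ℂ →L[ℂ] LL ℂ := pull _ (i0 0) + pull _ (i0 1) with hA
  set B : LL ℂ →L[ℂ] LL ℂ := (1 / 8 : ℂ) • (pull _ (i0 2) - pull _ (i0 3)) with hB
  have hA1 : ∀ v, ‖A v‖ ≤ 2 * ‖v‖ := fun v => by
    have := (norm_add_le _ _).trans (add_le_add (pull_norm _ (i0 0) v) (pull_norm _ (i0 1) v))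
    rw [two_mul]
    exact this
  have hB1 : ∀ v, ‖B v‖ ≤ 1 / 4 * ‖v‖ := fun v => by
    have := (norm_sub_le _ _).trans (add_le_add (pull_norm _ (i0 2) v) (pull_norm _ (i0 3) v))
    rw [hB, smul_apply, norm_smul, sub_apply]
    norm_num
    linarith
  have hB2 : ‖B‖ < 1 :=
    (ContinuousLinearMap.opNorm_le_bound _ (by norm_num) hB1).trans_lt (by norm_num)
  set N : LL ℂ →L[ℂ] LL ℂ := ↑(Units.oneSub B hB2)⁻¹ with hN
  have hN1 : ∀ v, N v = v + B (N v) := fun v => by
    have := congrArg (fun T : LL ℂ →L[ℂ] LL ℂ => T v) (Units.oneSub B hB2).mul_inv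
    simp only [Units.val_oneSub, mul_apply_eq_comp, sub_apply,
      one_apply_eq_self] at this
    exact sub_eq_iff_eq_add.mp this
  have hN2 : ∀ v, N v = v + N (B v) := fun v => by
    have := congrArg (fun T : LL ℂ →L[ℂ] LL ℂ => T v) (Units.oneSub B hB2).inv_mul
    simp only [Units.val_oneSub, mul_apply_eq_comp, sub_apply,
      one_apply_eq_self, map_sub] at this
    exact sub_eq_iff_eq_add.mp this
  have hN3 : ∀ v, ‖A (N v)‖ ≤ 8 / 3 * ‖v‖ := fun v => by
    have h1 := norm_add_le v (B (N v))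
    rw [← hN1] at h1
    linarith [hA1 (N v), hB1 (N v)]
  have hA2 : ∀ c, A (ee c) = ee (c / 2) := fun c => by
    refine lp.ext (funext fun w => ?_)
    change ee c (2 * w + 0) + ee c (2 * w + 1) = _
    simp only [ee_apply]
    split_ifs <;> first | omega | simp
  have hn : ‖(3 / 8 : ℂ)‖ = 3 / 8 := by norm_num
  refine ⟨(3 / 8 : ℂ) • A.comp N, fun v => ?_, fun c => ?_, fun c => ?_⟩
  · rw [smul_apply, norm_smul, hn, ContinuousLinearMap.comp_apply]
    linarith [hN3 v]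
  · rw [smul_apply, norm_smul, hn, ContinuousLinearMap.comp_apply]
    have h1 := congrArg A (hN2 (ee c))
    rw [map_add, hA2, ← sub_eq_iff_eq_add] at h1
    have h2 := norm_sub_le (A (N (ee c))) (A (N (B (ee c))))
    rw [h1, ee_norm] at h2
    have h3 := hN3 (B (ee c))
    have h4 := hB1 (ee c)
    rw [ee_norm] at h4
    linarith
  · have h1 : B (ee (2 * c + 2) - ee (2 * c + 3)) = (1 / 4 : ℂ) • ee c := by
      refine lp.ext (funext fun w => ?_)
      change (1 / 8 : ℂ) * ((ee (2 * c + 2) (2 * w + 2) - ee (2 * c + 3) (2 * w + 2)) -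
        (ee (2 * c + 2) (2 * w + 3) - ee (2 * c + 3) (2 * w + 3))) = (1 / 4 : ℂ) * ee c w
      simp only [ee_apply]
      split_ifs <;> first | omega | norm_num
    have h2 := congrArg A (hN2 (ee (2 * c + 2) - ee (2 * c + 3)))
    rw [map_add, map_sub A, hA2, hA2, show (2 * c + 2) / 2 = c + 1 by omega,
      show (2 * c + 3) / 2 = c + 1 by omega, sub_self, zero_add, h1, map_smul, map_smul] at h2
    rw [← map_sub]
    simp only [smul_apply, ContinuousLinearMap.comp_apply]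
    rw [h2, smul_smul, smul_smul]
    norm_num

/-- A pulse with its echoes. -/
noncomputable def PP (s τ : ℕ) (v : G) : LL G :=
  ∑' k : ℕ, ((1 / 17 : ℂ) ^ k) • lp.single 2 (s + k * τ) v

theorem PP_le (s τ : ℕ) (v : G) (k : ℕ) :
    ‖((1 / 17 : ℂ) ^ k) • (lp.single 2 (s + k * τ) v : LL G)‖ ≤ (1 / 17 : ℝ) ^ k * ‖v‖ := by
  rw [norm_smul, lp.norm_single (by norm_num), norm_pow]
  norm_num

theorem PP_geo (a : ℝ) : HasSum (fun k : ℕ => (1 / 17 : ℝ) ^ k * a) (17 / 16 * a) := by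
  have := (hasSum_geometric_of_lt_one (r := 1 / 17) (by norm_num) (by norm_num)).mul_right a
  norm_num at this ⊢
  exact this

theorem PP_norm (s τ : ℕ) (v : G) : ‖PP s τ v‖ ≤ 17 / 16 * ‖v‖ :=
  tsum_of_norm_bounded (PP_geo _) (PP_le s τ v)

variable [CompleteSpace G]

theorem PP_summable (s τ : ℕ) (v : G) :
    Summable fun k : ℕ => ((1 / 17 : ℂ) ^ k) • (lp.single 2 (s + k * τ) v : LL G) :=
  Summable.of_norm_bounded (PP_geo _).summable (PP_le s τ v)

theorem PP_rec (s τ : ℕ) (v : G) :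
    PP s τ v = lp.single 2 s v + (1 / 17 : ℂ) • PP (s + τ) τ v := by
  rw [PP, (PP_summable s τ v).tsum_eq_zero_add, PP, ← (PP_summable _ τ v).tsum_const_smul]
  simp only [pow_zero, zero_mul, add_zero, one_smul]
  congr 1
  refine tsum_congr fun k => ?_
  rw [smul_smul, pow_succ', show s + (k + 1) * τ = s + τ + k * τ by ring]

theorem PP_apply (s τ : ℕ) (v : G) (t : ℕ) :
    PP s τ v t = ∑' k : ℕ, ((1 / 17 : ℂ) ^ k) • if t = s + k * τ then v else 0 := by
  have := (lp.evalCLM ℂ (fun _ : ℕ => G) 2 t).map_tsum (PP_summable s τ v)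
  refine this.trans (tsum_congr fun k => ?_)
  rw [map_smul]
  congr 1
  change (lp.single 2 (s + k * τ) v : LL G) t = _
  rw [lp.single_apply, Pi.single_apply]

theorem PP_early (s τ : ℕ) (v : G) {t : ℕ} (h : t < s) : PP s τ v t = 0 := by
  rw [PP_apply]
  simp [show ∀ k, t ≠ s + k * τ from fun k => by omega]

theorem PP_shift (s τ : ℕ) (v : G) {t : ℕ} (h : s < τ) :
    PP s τ v (t + τ) = (1 / 17 : ℂ) • PP s τ v t := by
  have h1 : PP s τ v (t + τ) = (lp.single 2 s v : LL G) (t + τ) +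
      (1 / 17 : ℂ) • PP (s + τ) τ v (t + τ) := by
    rw [PP_rec s τ v]
    rfl
  rw [h1, lp.single_apply_ne _ _ _ (by omega), zero_add, PP_apply, PP_apply]
  congr 1
  refine tsum_congr fun k => ?_
  congr 2
  exact propext ⟨fun h => by omega, fun h => by omega⟩

theorem PP_map (U : G →L[ℂ] G) (hU : ∀ v, ‖U v‖ ≤ ‖v‖) (s τ : ℕ) (v : G) :
    mapU U hU (PP s τ v) = PP s τ (U v) := by
  rw [PP, (mapU U hU).map_tsum (PP_summable s τ v)]
  refine tsum_congr fun k => ?_
  rw [map_smul, mapU_single]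

theorem PP_other (s τ c t j : ℕ) (h : j ≠ c) : PP s τ (ee c) t j = 0 := by
  have h1 := ((lp.evalCLM ℂ (fun _ : ℕ => ℂ) 2 j).comp
    (lp.evalCLM ℂ (fun _ : ℕ => LL ℂ) 2 t)).map_tsum (PP_summable s τ (ee c))
  refine h1.trans ((tsum_congr fun k => ?_).trans tsum_zero)
  rw [map_smul]
  change _ • (lp.single 2 (s + k * τ) (ee c) : LL (LL ℂ)) t j = 0
  rw [lp.single_apply, Pi.single_apply]
  split_ifs
  · rw [ee_apply, if_neg h, smul_zero]
  · simp

end Pool.Agent.H810Z.LB
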