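import Mathlib
import Pool.Agent.H810Z.LB.Seq

set_option autoImplicit false
set_option linter.unusedSectionVars false

namespace Pool.Agent.H810Z.LB

open Filter Topology Finset

/-- States of the delay lines. -/
def QQ : Submodule ℂ (LL (LL ℂ)) where
  carrier := {q | ∀ t j, q (t + 2 ^ j) j = (1 / 17 : ℂ) * q t j}
  add_mem' := by
    intro p q hp hq t j
    change p (t + 2 ^ j) j + q (t + 2 ^ j) j = (1 / 17 : ℂ) * (p t j + q t j)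
    rw [hp, hq, mul_add]
  zero_mem' := by
    intro t j
    simp
  smul_mem' := by
    intro c q hq t j
    change c * q (t + 2 ^ j) j = (1 / 17 : ℂ) * (c * q t j)
    rw [hq, mul_left_comm]

theorem back_mem (q : LL (LL ℂ)) (hq : q ∈ QQ) : back q ∈ QQ := by
  intro t j
  rw [back_apply, back_apply, add_right_comm]
  exact hq (t + 1) j

theorem PP_mem (c s : ℕ) (h : s < 2 ^ c) : PP s (2 ^ c) (ee c) ∈ QQ := by
  intro t j
  by_cases hj : j = c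
  · subst hj
    rw [PP_shift _ _ _ h]
    rfl
  · rw [PP_other _ _ _ _ _ hj, PP_other _ _ _ _ _ hj, mul_zero]

/-- The state space. -/
abbrev HH : Type := WithLp 2 (QQ × LL (LL ℂ))

/-- The one-step map. -/
noncomputable def VL (U : LL ℂ →L[ℂ] LL ℂ) : HH →ₗ[ℂ] HH :=
  (WithLp.linearEquiv 2 ℂ (QQ × LL (LL ℂ))).symm.toLinearMap ∘ₗ
    (LinearMap.prod (back.toLinearMap.restrict back_mem ∘ₗ LinearMap.fst ℂ _ _)
      (consL ∘ₗ LinearMap.prod (U.toLinearMap ∘ₗ lp.evalₗ (fun _ : ℕ => LL ℂ) 2 0 ∘ₗ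
        QQ.subtype ∘ₗ LinearMap.fst ℂ _ _) (LinearMap.snd ℂ _ _))) ∘ₗ
    (WithLp.linearEquiv 2 ℂ (QQ × LL (LL ℂ))).toLinearMap

variable {U : LL ℂ →L[ℂ] LL ℂ}

theorem VL_fst (x : HH) : ((VL U x).fst : LL (LL ℂ)) = back (x.fst : LL (LL ℂ)) := rfl

theorem VL_snd (x : HH) : (VL U x).snd = consL (U ((x.fst : LL (LL ℂ)) 0), x.snd) := rfl

theorem HH_norm (x : HH) : ‖x‖ ^ 2 = ‖(x.fst : LL (LL ℂ))‖ ^ 2 + ‖x.snd‖ ^ 2 :=
  WithLp.prod_norm_sq_eq_of_L2 x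

theorem VL_norm (hU : ∀ v, ‖U v‖ ≤ ‖v‖) (x : HH) : ‖VL U x‖ ≤ 1 * ‖x‖ := by
  rw [one_mul, ← sq_le_sq₀ (norm_nonneg _) (norm_nonneg _), HH_norm, HH_norm, VL_fst, VL_snd,
    cons_norm, norm_split (back_apply (x.fst : LL (LL ℂ)))]
  linarith [pow_le_pow_left₀ (norm_nonneg _) (hU ((x.fst : LL (LL ℂ)) 0)) 2]

/-- The one-step map as a bounded operator. -/
noncomputable def VV (hU : ∀ v, ‖U v‖ ≤ ‖v‖) : HH →L[ℂ] HH := (VL U).mkContinuous 1 (VL_norm hU)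

theorem VV_apply (hU : ∀ v, ‖U v‖ ≤ ‖v‖) (x : HH) : VV hU x = VL U x := rfl

theorem quad {r a b : ℝ} : (1 - r ^ 2) * (r * a + b) ^ 2 ≤ (1 - r ^ 2) * a ^ 2 + b ^ 2 := by
  nlinarith [sq_nonneg ((1 - r ^ 2) * a - r * b)]

theorem far (z : ℂ) (hz : ‖z‖ < 1) :
    ∃ j0 : ℕ, ∀ j, j ≠ j0 → 1 / 34 ≤ ‖z ^ 2 ^ j - (1 / 17 : ℂ)‖ := by
  have key : ∀ i k : ℕ, i < k → ‖z ^ 2 ^ i - (1 / 17 : ℂ)‖ < 1 / 34 →
      ‖z ^ 2 ^ k - (1 / 17 : ℂ)‖ < 1 / 34 → False := by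
    intro i k hik h1 h2
    have h0 : ‖(1 / 17 : ℂ)‖ = 1 / 17 := by norm_num
    have h3 := norm_sub_norm_le (z ^ 2 ^ i) (1 / 17)
    have h4 := norm_sub_norm_le (1 / 17) (z ^ 2 ^ k)
    rw [norm_sub_rev] at h4
    rw [h0, norm_pow] at h3 h4
    have h5 : ‖z‖ ^ 2 ^ k ≤ (‖z‖ ^ 2 ^ i) ^ 2 := by
      rw [← pow_mul, ← pow_succ]
      exact pow_le_pow_of_le_one (norm_nonneg _) hz.le (Nat.pow_le_pow_right (by norm_num) hik)
    have h6 : 0 ≤ ‖z‖ ^ 2 ^ i := by positivity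
    nlinarith
  by_cases h : ∃ j0, ‖z ^ 2 ^ j0 - (1 / 17 : ℂ)‖ < 1 / 34
  · obtain ⟨j0, h⟩ := h
    refine ⟨j0, fun j hj => le_of_not_gt fun h' => ?_⟩
    rcases lt_or_gt_of_ne hj with h1 | h1
    · exact key _ _ h1 h' h
    · exact key _ _ h1 h h'
  · push Not at h
    exact ⟨0, fun j _ => h j⟩

theorem line (z : ℂ) (hz : ‖z‖ < 1) (q g : ℕ → ℂ) (h : ∀ t, g t = z * q t - q (t + 1)) (s : ℕ) :
    (1 - ‖z‖ ^ 2) * ‖z ^ s * q 0 - q s‖ ^ 2 ≤ ∑ r ∈ range s, ‖g r‖ ^ 2 := by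
  have hb : 0 ≤ 1 - ‖z‖ ^ 2 := by nlinarith [norm_nonneg z]
  induction s with
  | zero => simp
  | succ s ih =>
    have h1 : z ^ (s + 1) * q 0 - q (s + 1) = z * (z ^ s * q 0 - q s) + g s := by
      rw [h]
      ring
    have h2 := norm_add_le (z * (z ^ s * q 0 - q s)) (g s)
    rw [norm_mul, ← h1] at h2
    have h3 := mul_le_mul_of_nonneg_left (pow_le_pow_left₀ (norm_nonneg _) h2 2) hb
    rw [sum_range_succ]
    linarith [quad (r := ‖z‖) (a := ‖z ^ s * q 0 - q s‖) (b := ‖g s‖)]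

theorem cols (g : LL (LL ℂ)) (J : Finset ℕ) (R : ℕ → ℕ) :
    ∑ j ∈ J, ∑ r ∈ range (R j), ‖g r j‖ ^ 2 ≤ ‖g‖ ^ 2 := by
  calc _ ≤ ∑ j ∈ J, ∑ r ∈ range (J.sup R), ‖g r j‖ ^ 2 :=
        sum_le_sum fun j hj => sum_le_sum_of_subset_of_nonneg
          (range_subset_range.mpr (le_sup hj)) fun _ _ _ => sq_nonneg _
    _ = ∑ r ∈ range (J.sup R), ∑ j ∈ J, ‖g r j‖ ^ 2 := sum_comm
    _ ≤ ∑ r ∈ range (J.sup R), ‖g r‖ ^ 2 :=
        sum_le_sum fun r _ => sum_le_hasSum J (fun _ _ => sq_nonneg _) (hasSum_sq (g r))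
    _ ≤ _ := sum_le_hasSum _ (fun _ _ => sq_nonneg _) (hasSum_sq g)

theorem arith {r nq ny ng nh n0 nU n' c D : ℝ} (hr0 : 0 ≤ r) (hr : r < 1) (hq : 0 ≤ nq)
    (hy : 0 ≤ ny) (hg : 0 ≤ ng) (hh : 0 ≤ nh) (h0 : 0 ≤ n0) (hD : 0 ≤ D)
    (h1 : nU ^ 2 + ny ^ 2 ≤ (r * ny + nh) ^ 2) (h2 : nq ^ 2 - n0 ^ 2 ≤ (r * nq + ng) ^ 2)
    (h3 : (1 - r ^ 2) * (1 / 34) ^ 2 * n' ^ 2 ≤ ng ^ 2) (h4 : c * (1 / 8) ≤ nU + n')
    (h5 : n0 ≤ n' + c) (h6 : D ^ 2 = ng ^ 2 + nh ^ 2) : (1 - r) * (nq + ny) ≤ 500 * D := by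
  have hb : 0 ≤ 1 - r ^ 2 := by nlinarith
  have hgD : ng ≤ D := by nlinarith [abs_le_of_sq_le_sq' (by nlinarith : ng ^ 2 ≤ D ^ 2) hD]
  have hhD : nh ≤ D := by nlinarith [abs_le_of_sq_le_sq' (by nlinarith : nh ^ 2 ≤ D ^ 2) hD]
  have a1 : ny ≤ r * ny + nh :=
    (abs_le_of_sq_le_sq' (by nlinarith [sq_nonneg nU]) (by positivity)).2
  have a2 : (1 - r ^ 2) * nU ^ 2 ≤ nh ^ 2 := by
    have := mul_le_mul_of_nonneg_left h1 hb
    linarith [quad (r := r) (a := ny) (b := nh)]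
  have a3 : n0 ^ 2 ≤ 162 * n' ^ 2 + 128 * nU ^ 2 := by
    have := pow_le_pow_left₀ h0 (show n0 ≤ 9 * n' + 8 * nU by linarith) 2
    nlinarith [sq_nonneg (9 * n' - 8 * nU)]
  have a4 : (1 - r ^ 2) * n0 ^ 2 ≤ 187272 * D ^ 2 := by
    have := mul_le_mul_of_nonneg_left a3 hb
    nlinarith [sq_nonneg ng, sq_nonneg nh]
  have a5 : (1 - r) * (1 - r) * nq ^ 2 ≤ (1 - r) * (1 - r ^ 2) * nq ^ 2 :=
    mul_le_mul_of_nonneg_right (mul_le_mul_of_nonneg_left (by nlinarith) (by linarith))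
      (sq_nonneg _)
  have a6 : (1 - r ^ 2) * nq ^ 2 ≤ 2 * nq * ng + ng ^ 2 + n0 ^ 2 := by
    nlinarith [mul_nonneg hq hg]
  have a7 := mul_le_mul_of_nonneg_left a6 (show 0 ≤ 1 - r by linarith)
  have a8 : (1 - r) * n0 ^ 2 ≤ (1 - r ^ 2) * n0 ^ 2 :=
    mul_le_mul_of_nonneg_right (by nlinarith) (sq_nonneg _)
  have a9 : (1 - r) * ng ^ 2 ≤ ng ^ 2 := by nlinarith [sq_nonneg ng]
  have a10 : ((1 - r) * nq - ng) ^ 2 ≤ (433 * D) ^ 2 := by nlinarith [sq_nonneg nh]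
  have a11 := (abs_le_of_sq_le_sq' a10 (by positivity)).2
  nlinarith

theorem VV_lower (hU : ∀ v, ‖U v‖ ≤ ‖v‖) (hU2 : ∀ c, 1 / 8 ≤ ‖U (ee c)‖) (z : ℂ) (hz : ‖z‖ < 1)
    (x : HH) : 1 / 500 * (1 - ‖z‖) * ‖x‖ ≤ ‖z • x - VV hU x‖ := by
  set q : LL (LL ℂ) := (x.fst : LL (LL ℂ)) with hq
  set g : LL (LL ℂ) := z • q - back q with hg
  set h : LL (LL ℂ) := z • x.snd - consL (U (q 0), x.snd) with hh
  have h6 : ‖z • x - VV hU x‖ ^ 2 = ‖g‖ ^ 2 + ‖h‖ ^ 2 := HH_norm _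
  have h1 : ‖U (q 0)‖ ^ 2 + ‖x.snd‖ ^ 2 ≤ (‖z‖ * ‖x.snd‖ + ‖h‖) ^ 2 := by
    rw [← cons_norm, ← norm_smul]
    refine pow_le_pow_left₀ (norm_nonneg _) ?_ 2
    rw [show consL (U (q 0), x.snd) = z • x.snd - h by rw [hh, sub_sub_cancel]]
    exact norm_sub_le _ _
  have h2 : ‖q‖ ^ 2 - ‖q 0‖ ^ 2 ≤ (‖z‖ * ‖q‖ + ‖g‖) ^ 2 := by
    rw [norm_split (back_apply q), add_sub_cancel_left, ← norm_smul]
    refine pow_le_pow_left₀ (norm_nonneg _) ?_ 2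
    rw [show back q = z • q - g by rw [hg, sub_sub_cancel]]
    exact norm_sub_le _ _
  obtain ⟨j0, hj0⟩ := far z hz
  set x' : LL ℂ := q 0 - q 0 j0 • ee j0 with hx'
  have hb : 0 ≤ 1 - ‖z‖ ^ 2 := by nlinarith [norm_nonneg z]
  have h3 : (1 - ‖z‖ ^ 2) * (1 / 34) ^ 2 * ‖x'‖ ^ 2 ≤ ‖g‖ ^ 2 := by
    refine hasSum_le_of_sum_le ((hasSum_sq x').mul_left _) fun J => ?_
    refine (sum_le_sum fun j _ => ?_).trans (cols g J fun j => 2 ^ j)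
    have e1 : x' j = q 0 j - q 0 j0 * ee j0 j := rfl
    rw [e1, ee_apply]
    split_ifs with hj
    · rw [hj, mul_one, sub_self, norm_zero]
      simp only [ne_eq, OfNat.ofNat_ne_zero, not_false_eq_true, zero_pow, mul_zero]
      positivity
    · refine le_trans ?_ (line z hz (fun t => q t j) (fun t => g t j) (fun t => rfl) (2 ^ j))
      have e2 := x.fst.2 0 j
      rw [zero_add] at e2
      change q (2 ^ j) j = 1 / 17 * q 0 j at e2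
      rw [mul_zero, sub_zero, e2, ← sub_mul, norm_mul, mul_pow, mul_assoc]
      exact mul_le_mul_of_nonneg_left (mul_le_mul_of_nonneg_right
        (pow_le_pow_left₀ (by norm_num) (hj0 j hj) 2) (sq_nonneg _)) hb
  have h4 : ‖q 0 j0‖ * (1 / 8) ≤ ‖U (q 0)‖ + ‖x'‖ := by
    have e1 : q 0 j0 • U (ee j0) = U (q 0) - U x' := by
      rw [← map_sub, hx', sub_sub_cancel, map_smul]
    have e2 := norm_sub_le (U (q 0)) (U x')
    rw [← e1, norm_smul] at e2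
    linarith [mul_le_mul_of_nonneg_left (hU2 j0) (norm_nonneg (q 0 j0)), hU x']
  have h5 : ‖q 0‖ ≤ ‖x'‖ + ‖q 0 j0‖ := by
    have e1 := norm_add_le x' (q 0 j0 • ee j0)
    rwa [hx', sub_add_cancel, norm_smul, ee_norm, mul_one] at e1
  have h7 := arith (norm_nonneg z) hz (norm_nonneg _) (norm_nonneg _) (norm_nonneg _)
    (norm_nonneg _) (norm_nonneg _) (norm_nonneg _) h1 h2 h3 h4 h5 h6
  have h8 : ‖x‖ ≤ ‖q‖ + ‖x.snd‖ := by
    refine (abs_le_of_sq_le_sq' ?_ (by positivity)).2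
    rw [HH_norm]
    nlinarith [mul_nonneg (norm_nonneg q) (norm_nonneg x.snd)]
  have h9 := mul_le_mul_of_nonneg_left h8 (show 0 ≤ 1 - ‖z‖ by linarith)
  linarith

/-- The approximation property at depth with error `θ`. -/
def Good (hU : ∀ v, ‖U v‖ ≤ ‖v‖) (K : ℕ) (θ : ℝ) : Prop :=
  ∀ c, K ≤ c → ∀ s, s < 2 ^ c → ∃ q ∈ QQ, (∀ t j, j < c → q t j = 0) ∧ q s c = 1 ∧
    ‖mapU U hU q - lp.single 2 s (U (ee c))‖ ≤ θ

theorem PP_first (c s : ℕ) : PP s (2 ^ c) (ee c) s c = 1 := by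
  have h1 : PP s (2 ^ c) (ee c) s = (lp.single 2 s (ee c) : LL (LL ℂ)) s +
      (1 / 17 : ℂ) • PP (s + 2 ^ c) (2 ^ c) (ee c) s := by
    rw [PP_rec s (2 ^ c) (ee c)]
    rfl
  rw [h1, PP_early _ _ _ (by have := Nat.two_pow_pos c; omega), smul_zero, add_zero,
    lp.single_apply_self, ee_apply, if_pos rfl]

theorem n17 : ‖(1 / 17 : ℂ)‖ = 1 / 17 := by norm_num

theorem good_zero (hU : ∀ v, ‖U v‖ ≤ ‖v‖) (K : ℕ) : Good hU K 1 := by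
  intro c _ s hs
  refine ⟨_, PP_mem c s hs, fun t j hj => PP_other _ _ _ _ _ hj.ne, PP_first c s, ?_⟩
  rw [PP_map, PP_rec, add_sub_cancel_left, norm_smul, n17]
  have h1 := PP_norm (s + 2 ^ c) (2 ^ c) (U (ee c))
  have h2 := hU (ee c)
  rw [ee_norm] at h2
  linarith

theorem good_pair (hU : ∀ v, ‖U v‖ ≤ ‖v‖)
    (hU3 : ∀ c, U (ee c) = (4 : ℂ) • (U (ee (2 * c + 2)) - U (ee (2 * c + 3)))) {K : ℕ} {θ : ℝ}
    (h : Good hU K θ) {c : ℕ} (hc : K ≤ c) {s : ℕ} (hs : s < 2 ^ (2 * c + 2)) :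
    ∃ r ∈ QQ, (∀ t j, j ≤ c → r t j = 0) ∧
      ‖lp.single 2 s (U (ee c)) - mapU U hU r‖ ≤ 8 * θ := by
  obtain ⟨q1, a1, a2, -, a3⟩ := h (2 * c + 2) (by omega) s hs
  obtain ⟨q2, b1, b2, -, b3⟩ := h (2 * c + 3) (by omega) s
    (hs.trans_le (Nat.pow_le_pow_right (by norm_num) (by omega)))
  refine ⟨(4 : ℂ) • (q1 - q2), QQ.smul_mem _ (QQ.sub_mem a1 b1), fun t j hj => ?_, ?_⟩
  · change (4 : ℂ) * (q1 t j - q2 t j) = 0
    rw [a2 t j (by omega), b2 t j (by omega), sub_self, mul_zero]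
  · rw [hU3 c, lp.single_smul, lp.single_sub, map_smul, map_sub, ← smul_sub, norm_smul,
      show lp.single 2 s (U (ee (2 * c + 2))) - lp.single 2 s (U (ee (2 * c + 3))) -
        (mapU U hU q1 - mapU U hU q2) = (mapU U hU q2 - lp.single 2 s (U (ee (2 * c + 3)))) -
        (mapU U hU q1 - lp.single 2 s (U (ee (2 * c + 2)))) by abel]
    have := (norm_sub_le _ _).trans (add_le_add b3 a3)
    norm_num
    linarith

theorem good_step (hU : ∀ v, ‖U v‖ ≤ ‖v‖)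
    (hU3 : ∀ c, U (ee c) = (4 : ℂ) • (U (ee (2 * c + 2)) - U (ee (2 * c + 3)))) {K : ℕ} {θ : ℝ}
    (hθ : 0 ≤ θ) (h : Good hU K θ) : Good hU K (θ / 2 + (1 / 17) ^ K / 16) := by
  intro c hc s hs
  have inner : ∀ k s', s' + k * 2 ^ c ≤ 2 ^ (2 * c + 2) → ∃ r ∈ QQ, (∀ t j, j ≤ c → r t j = 0) ∧
      ‖PP s' (2 ^ c) (U (ee c)) - mapU U hU r‖ ≤ 17 / 2 * θ + (1 / 17) ^ k * (17 / 16) := by
    intro k
    induction k with
    | zero =>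
      intro s' _
      refine ⟨0, QQ.zero_mem, fun _ _ _ => rfl, ?_⟩
      have h1 := PP_norm s' (2 ^ c) (U (ee c))
      have h2 := hU (ee c)
      rw [ee_norm] at h2
      rw [map_zero, sub_zero, pow_zero]
      linarith
    | succ k ih =>
      intro s' hs'
      have hp := Nat.two_pow_pos c
      rw [add_mul, one_mul] at hs'
      obtain ⟨r1, a1, a2, a3⟩ := good_pair hU hU3 h hc (s := s') (by omega)
      obtain ⟨r2, b1, b2, b3⟩ := ih (s' + 2 ^ c) (by omega)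
      refine ⟨r1 + (1 / 17 : ℂ) • r2, QQ.add_mem a1 (QQ.smul_mem _ b1), fun t j hj => ?_, ?_⟩
      · change r1 t j + (1 / 17 : ℂ) * r2 t j = 0
        rw [a2 t j hj, b2 t j hj, mul_zero, add_zero]
      · rw [PP_rec, map_add, map_smul, add_sub_add_comm, ← smul_sub]
        refine (norm_add_le _ _).trans ?_
        rw [norm_smul, n17, pow_succ]
        linarith
  obtain ⟨r, a1, a2, a3⟩ := inner K (s + 2 ^ c) (by
    have h1 : K + 2 < 2 ^ (c + 2) := lt_of_le_of_lt (by omega) (Nat.lt_two_pow_self (n := c + 2))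
    rw [show 2 * c + 2 = c + 2 + c by ring, pow_add]
    nlinarith)
  refine ⟨PP s (2 ^ c) (ee c) - (1 / 17 : ℂ) • r, QQ.sub_mem (PP_mem c s hs) (QQ.smul_mem _ a1),
    fun t j hj => ?_, ?_, ?_⟩
  · change PP s (2 ^ c) (ee c) t j - (1 / 17 : ℂ) * r t j = 0
    rw [PP_other _ _ _ _ _ hj.ne, a2 t j hj.le, mul_zero, sub_zero]
  · change PP s (2 ^ c) (ee c) s c - (1 / 17 : ℂ) * r s c = 1
    rw [PP_first, a2 s c le_rfl, mul_zero, sub_zero]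
  · rw [map_sub, map_smul, PP_map, PP_rec, sub_right_comm, add_sub_cancel_left, ← smul_sub,
      norm_smul, n17]
    linarith

theorem good_all (hU : ∀ v, ‖U v‖ ≤ ‖v‖)
    (hU3 : ∀ c, U (ee c) = (4 : ℂ) • (U (ee (2 * c + 2)) - U (ee (2 * c + 3)))) (K d : ℕ) :
    Good hU K ((1 / 2) ^ d + (1 / 17) ^ K) := by
  have hK : (0 : ℝ) ≤ (1 / 17) ^ K := by positivity
  induction d with
  | zero =>
    intro c hc s hs
    obtain ⟨q, h1, h2, h3, h4⟩ := good_zero hU K c hc s hs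
    exact ⟨q, h1, h2, h3, by rw [pow_zero]; linarith⟩
  | succ d ih =>
    intro c hc s hs
    obtain ⟨q, h1, h2, h3, h4⟩ := good_step hU hU3 (by positivity) ih c hc s hs
    exact ⟨q, h1, h2, h3, by rw [pow_succ]; linarith⟩

theorem VV_pow (hU : ∀ v, ‖U v‖ ≤ ‖v‖) (x : HH) (n : ℕ) :
    (∀ t, (((VV hU ^ n) x).fst : LL (LL ℂ)) t = (x.fst : LL (LL ℂ)) (t + n)) ∧
    ‖(((VV hU ^ n) x).fst : LL (LL ℂ))‖ ^ 2 = ‖(x.fst : LL (LL ℂ))‖ ^ 2 -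
      ∑ t ∈ range n, ‖(x.fst : LL (LL ℂ)) t‖ ^ 2 ∧
    ‖((VV hU ^ n) x).snd‖ ^ 2 = ‖x.snd‖ ^ 2 + ∑ t ∈ range n, ‖U ((x.fst : LL (LL ℂ)) t)‖ ^ 2 := by
  induction n with
  | zero => simp
  | succ n ih =>
    have h1 : (VV hU ^ (n + 1)) x = VL U ((VV hU ^ n) x) := by
      rw [pow_succ']
      rfl
    have h2 := norm_split (back_apply (((VV hU ^ n) x).fst : LL (LL ℂ)))
    rw [h1, VL_fst, VL_snd, cons_norm, sum_range_succ, sum_range_succ]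
    rw [ih.1, zero_add] at h2
    refine ⟨fun t => ?_, by linarith [ih.2.1], ?_⟩
    · rw [back_apply, ih.1, add_assoc, add_comm 1]
    · rw [ih.1, zero_add, ih.2.2]
      ring

theorem VV_small (hU : ∀ v, ‖U v‖ ≤ ‖v‖)
    (hU3 : ∀ c, U (ee c) = (4 : ℂ) • (U (ee (2 * c + 2)) - U (ee (2 * c + 3)))) (ε : ℝ)
    (hε : 0 < ε) : ∃ (n : ℕ) (x : HH), ‖(VV hU ^ n) x‖ < ε * ‖x‖ := by
  obtain ⟨d, hd⟩ := exists_pow_lt_of_lt_one (show 0 < ε / 36 by positivity)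
    (show (1 / 2 : ℝ) < 1 by norm_num)
  obtain ⟨K, hK⟩ := exists_pow_lt_of_lt_one (show 0 < ε / 36 by positivity)
    (show (1 / 17 : ℝ) < 1 by norm_num)
  have hg := good_all hU hU3 K d
  obtain ⟨q, a1, -, a2, a3⟩ := hg K le_rfl 0 (Nat.two_pow_pos _)
  obtain ⟨r, b1, b2, b3⟩ := good_pair hU hU3 hg le_rfl (s := 0) (Nat.two_pow_pos _)
  have h1 : ‖mapU U hU (q - r)‖ ≤ ε / 2 := by
    have := (norm_add_le _ _).trans (add_le_add a3 b3)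
    rw [sub_add_sub_cancel, ← map_sub] at this
    linarith
  have h2 : 1 ≤ ‖q - r‖ := by
    have e1 : (q - r) 0 K = q 0 K - r 0 K := rfl
    have e2 := (lp.norm_apply_le_norm (by norm_num) ((q - r) 0) K).trans
      (lp.norm_apply_le_norm (by norm_num) (q - r) 0)
    rwa [e1, a2, b2 0 K le_rfl, sub_zero, norm_one] at e2
  have h3 := (hasSum_sq (q - r)).tendsto_sum_nat
  obtain ⟨n, hn⟩ := (h3.eventually (lt_mem_nhds (show ‖q - r‖ ^ 2 - ε ^ 2 / 2 < ‖q - r‖ ^ 2 by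
    nlinarith))).exists
  set x : HH := WithLp.toLp 2 (⟨q - r, QQ.sub_mem a1 b1⟩, 0) with hx
  have hx1 : (x.fst : LL (LL ℂ)) = q - r := rfl
  have hx2 : x.snd = 0 := rfl
  refine ⟨n, x, ?_⟩
  have h4 := VV_pow hU x n
  have h5 := HH_norm ((VV hU ^ n) x)
  have h6 := HH_norm x
  rw [h4.2.1, h4.2.2] at h5
  rw [hx1, hx2, norm_zero] at h5 h6
  have h7 : ∑ t ∈ range n, ‖U ((q - r) t)‖ ^ 2 ≤ ‖mapU U hU (q - r)‖ ^ 2 :=
    sum_le_hasSum _ (fun _ _ => sq_nonneg _) (hasSum_sq (mapU U hU (q - r)))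
  have h8 := pow_le_pow_left₀ (norm_nonneg _) h1 2
  have h9 : 1 ≤ ‖x‖ ^ 2 := by nlinarith
  refine lt_of_pow_lt_pow_left₀ 2 (by positivity) ?_
  rw [mul_pow]
  nlinarith [mul_le_mul_of_nonneg_left h9 (sq_nonneg ε)]

end Pool.Agent.H810Z.LB
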