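import Mathlib

set_option autoImplicit false
set_option linter.unusedSectionVars false

namespace Pool.Agent.H810Z.LB

open MeasureTheory Filter Topology
open scoped InnerProductSpace

theorem gen_bound {H : Type} [NormedAddCommGroup H] [InnerProductSpace ℂ H] (T : ℝ → H →L[ℂ] H)
    (h0 : T 0 = ContinuousLinearMap.id ℂ H)
    (hadd : ∀ s t : ℝ, 0 ≤ s → 0 ≤ t → T (s + t) = (T s).comp (T t))
    (hc : ∀ x : H, ContinuousOn (fun t : ℝ => T t x) (Set.Ici 0))
    (hn : ∀ t : ℝ, 0 ≤ t → ‖T t‖ ≤ 1) (m : ℝ)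
    (hm : ∀ z : ℂ, ‖z‖ < 1 → ∀ x, m * (1 - ‖z‖) * ‖x‖ ≤ ‖z • x - T 1 x‖) (x y : H)
    (hxy : Tendsto (fun h : ℝ => ((h : ℂ)⁻¹) • (T h x - x)) (𝓝[>] 0) (𝓝 y)) (μ : ℂ)
    (hμ : μ.re < 0) : m * |μ.re| * ‖x‖ ≤ ‖μ • x - y‖ := by
  have hd : ∀ t : ℝ, 0 ≤ t → HasDerivWithinAt (fun t : ℝ => T t x) (T t y) (Set.Ici t) t := by
    intro t ht
    refine HasDerivWithinAt.Ici_of_Ioi ?_
    rw [hasDerivWithinAt_iff_tendsto_slope' (by simp)]
    have h1 : Tendsto (fun u : ℝ => u - t) (𝓝[>] t) (𝓝[>] 0) := by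
      refine tendsto_nhdsWithin_iff.mpr ⟨?_, ?_⟩
      · have : Tendsto (fun u : ℝ => u - t) (𝓝 t) (𝓝 (t - t)) :=
          (continuous_id.sub continuous_const).tendsto t
        rw [sub_self] at this
        exact this.mono_left nhdsWithin_le_nhds
      · filter_upwards [self_mem_nhdsWithin] with u hu using sub_pos.mpr (show t < u from hu)
    refine (((T t).continuous.tendsto y).comp (hxy.comp h1)).congr' ?_
    filter_upwards [self_mem_nhdsWithin] with u hu
    have h2 : T u x = T t (T (u - t) x) := by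
      have := hadd t (u - t) ht (sub_nonneg.mpr (le_of_lt hu))
      rw [add_sub_cancel] at this
      rw [this]
      rfl
    simp only [Function.comp_apply, slope_def_module, map_smul, map_sub, h2]
    rw [← Complex.ofReal_inv, Complex.coe_smul]
  set a := -μ.re with ha
  have ha0 : 0 < a := by linarith
  have he : ∀ t : ℝ, HasDerivAt (fun t : ℝ => Complex.exp (μ * (1 - t)))
      (Complex.exp (μ * (1 - t)) * (μ * (-1))) t := by
    intro t
    exact (((Complex.ofRealCLM.hasDerivAt (x := t)).const_sub 1).const_mul μ).cexp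
  have hne : ∀ t : ℝ, ‖Complex.exp (μ * (1 - t))‖ = Real.exp (-a * (1 - t)) := by
    intro t
    rw [Complex.norm_exp]
    simp [ha]
  have key := image_norm_le_of_norm_deriv_right_le_deriv_boundary
    (f := fun t : ℝ => Complex.exp (μ * (1 - t)) • T t x - Complex.exp μ • x)
    (f' := fun t : ℝ => -(Complex.exp (μ * (1 - t)) • T t (μ • x - y))) (a := 0) (b := 1)
    (B := fun t => ‖μ • x - y‖ * ((Real.exp (-a * (1 - t)) - Real.exp (-a)) / a))
    (B' := fun t => ‖μ • x - y‖ * (Real.exp (-a * (1 - t)) * (-a * (-1)) / a))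
    (((continuous_iff_continuousAt.mpr fun t => (he t).continuousAt).continuousOn.smul
      ((hc x).mono Set.Icc_subset_Ici_self)).sub continuousOn_const)
    (fun t ht => by
      refine (((he t).hasDerivWithinAt.smul (hd t ht.1)).sub_const _).congr_deriv ?_
      rw [map_sub, map_smul]
      module)
    (by simp [h0])
    (fun t => (((((hasDerivAt_id t).const_sub 1).const_mul (-a)).exp.sub_const _).div_const
      a).const_mul _)
    (fun t ht => by
      rw [norm_neg, norm_smul, hne, mul_comm, show Real.exp (-a * (1 - t)) * (-a * (-1)) / a =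
        Real.exp (-a * (1 - t)) by field_simp]
      refine mul_le_mul_of_nonneg_right ?_ (Real.exp_pos _).le
      exact ((T t).le_opNorm _).trans (mul_le_of_le_one_left (norm_nonneg _) (hn t ht.1)))
    (x := 1) ⟨zero_le_one, le_rfl⟩
  have h1 : ‖Complex.exp μ‖ = Real.exp (-a) := by rw [Complex.norm_exp, ha, neg_neg]
  have h2 : Real.exp (-a) < 1 := Real.exp_lt_one_iff.mpr (by linarith)
  have h3 := hm (Complex.exp μ) (by rw [h1]; exact h2) x
  simp only [Complex.ofReal_one, sub_self, mul_zero, Complex.exp_zero, one_smul,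
    Real.exp_zero] at key
  rw [norm_sub_rev] at key
  have h4 := h3.trans key
  rw [h1, ← mul_div_assoc, le_div_iff₀ ha0] at h4
  rw [abs_of_neg hμ, ← ha]
  refine le_of_mul_le_mul_right (a := 1 - Real.exp (-a)) ?_ (by linarith)
  linarith

variable {H : Type} [NormedAddCommGroup H] [InnerProductSpace ℂ H]

/-- Continuous trajectories of `V`. -/
def DSub (V : H →L[ℂ] H) : Submodule ℂ C(ℝ, H) where
  carrier := {F | ∀ s : ℝ, 0 ≤ s → F (s + 1) = V (F s)}
  add_mem' := by
    intro F G hF hG s hs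
    simp [hF s hs, hG s hs]
  zero_mem' := by
    intro s _
    simp
  smul_mem' := by
    intro c F hF s hs
    simp [hF s hs]

/-- A type synonym without topology. -/
def DD (V : H →L[ℂ] H) : Type := ↥(DSub V)

variable {V : H →L[ℂ] H}

noncomputable instance : AddCommGroup (DD V) := inferInstanceAs (AddCommGroup ↥(DSub V))

noncomputable instance : Module ℂ (DD V) := inferInstanceAs (Module ℂ ↥(DSub V))

/-- The underlying function. -/
def DD.f (F : DD V) : C(ℝ, H) := Subtype.val F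

theorem DD.prop (F : DD V) : ∀ s : ℝ, 0 ≤ s → F.f (s + 1) = V (F.f s) := Subtype.property F

theorem DD.ext' {F G : DD V} (h : ∀ s, F.f s = G.f s) : F = G :=
  Subtype.ext (ContinuousMap.ext h)

theorem DD.add_f (F G : DD V) (s : ℝ) : (F + G).f s = F.f s + G.f s := rfl

theorem DD.sub_f (F G : DD V) (s : ℝ) : (F - G).f s = F.f s - G.f s := rfl

theorem DD.smul_f (c : ℂ) (F : DD V) (s : ℝ) : (c • F).f s = c • F.f s := rfl

theorem DD.inner_self (F : DD V) :
    RCLike.re (∫ s in (0 : ℝ)..1, ⟪F.f s, F.f s⟫_ℂ) = ∫ s in (0 : ℝ)..1, ‖F.f s‖ ^ 2 := by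
  have : ∀ s, ⟪F.f s, F.f s⟫_ℂ = ((‖F.f s‖ ^ 2 : ℝ) : ℂ) := fun s => by
    rw [inner_self_eq_norm_sq_to_K]
    simp
  simp_rw [this]
  rw [intervalIntegral.integral_ofReal]
  simp only [RCLike.re_to_complex, Complex.ofReal_re]

/-- The `L^2` product over one period. -/
@[reducible] noncomputable def core (V : H →L[ℂ] H) : PreInnerProductSpace.Core ℂ (DD V) where
  inner F G := ∫ s in (0 : ℝ)..1, ⟪F.f s, G.f s⟫_ℂ
  conj_inner_symm F G := by
    rw [intervalIntegral.integral_of_le zero_le_one, intervalIntegral.integral_of_le zero_le_one,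
      ← integral_conj]
    simp only [inner_conj_symm]
  re_inner_nonneg F := by
    rw [DD.inner_self]
    exact intervalIntegral.integral_nonneg zero_le_one fun s _ => sq_nonneg _
  add_left F G K := by
    simp only [DD.add_f, inner_add_left]
    exact intervalIntegral.integral_add
      ((F.f.continuous.inner K.f.continuous).intervalIntegrable _ _)
      ((G.f.continuous.inner K.f.continuous).intervalIntegrable _ _)
  smul_left F G c := by
    simp only [DD.smul_f, inner_smul_left]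
    exact intervalIntegral.integral_const_mul _ _

noncomputable instance : SeminormedAddCommGroup (DD V) :=
  @InnerProductSpace.Core.toSeminormedAddCommGroup ℂ (DD V) _ _ _ (core V)

noncomputable instance : InnerProductSpace ℂ (DD V) := InnerProductSpace.ofCore (core V)

theorem DD.norm_sq (F : DD V) : ‖F‖ ^ 2 = ∫ s in (0 : ℝ)..1, ‖F.f s‖ ^ 2 := by
  rw [← DD.inner_self, ← inner_self_eq_norm_sq (𝕜 := ℂ)]
  rfl

/-- Translation. -/
noncomputable def shiftL (V : H →L[ℂ] H) (t : ℝ) : DD V →ₗ[ℂ] DD V where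
  toFun F := (⟨F.f.comp ⟨fun s => s + max t 0, by fun_prop⟩, fun s hs => by
    change F.f (s + 1 + max t 0) = V (F.f (s + max t 0))
    rw [add_right_comm, F.prop _ (add_nonneg hs (le_max_right _ _))]⟩ : DSub V)
  map_add' _ _ := rfl
  map_smul' _ _ := rfl

theorem shiftL_f (t : ℝ) (F : DD V) (s : ℝ) : (shiftL V t F).f s = F.f (s + max t 0) := rfl

theorem shiftL_norm (hV : ∀ x, ‖V x‖ ≤ ‖x‖) (t : ℝ) (F : DD V) : ‖shiftL V t F‖ ≤ 1 * ‖F‖ := by
  rw [one_mul, ← sq_le_sq₀ (norm_nonneg _) (norm_nonneg _), DD.norm_sq, DD.norm_sq]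
  simp only [shiftL_f]
  set u := max t 0
  have hu : 0 ≤ u := le_max_right _ _
  have hc : Continuous fun s => ‖F.f s‖ ^ 2 := F.f.continuous.norm.pow 2
  have hi := fun a b : ℝ => hc.intervalIntegrable (μ := volume) a b
  rw [intervalIntegral.integral_comp_add_right (fun s => ‖F.f s‖ ^ 2) u, zero_add]
  have h1 := intervalIntegral.integral_add_adjacent_intervals (hi 0 u) (hi u (1 + u))
  have h2 := intervalIntegral.integral_add_adjacent_intervals (hi 0 1) (hi 1 (1 + u))
  have h3 := intervalIntegral.integral_comp_add_right (a := 0) (b := u) (fun s => ‖F.f s‖ ^ 2) 1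
  rw [zero_add, add_comm u 1] at h3
  have h4 : ∫ s in (0 : ℝ)..u, ‖F.f (s + 1)‖ ^ 2 ≤ ∫ s in (0 : ℝ)..u, ‖F.f s‖ ^ 2 := by
    refine intervalIntegral.integral_mono_on hu
      ((hc.comp (continuous_add_const 1)).intervalIntegrable _ _) (hi _ _) fun s hs => ?_
    rw [F.prop s hs.1]
    exact pow_le_pow_left₀ (norm_nonneg _) (hV _) 2
  linarith

/-- Translation as a bounded operator. -/
noncomputable def shift (hV : ∀ x, ‖V x‖ ≤ ‖x‖) (t : ℝ) : DD V →L[ℂ] DD V :=
  (shiftL V t).mkContinuous 1 (shiftL_norm hV t)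

theorem shift_f (hV : ∀ x, ‖V x‖ ≤ ‖x‖) (t : ℝ) (F : DD V) (s : ℝ) :
    (shift hV t F).f s = F.f (s + max t 0) := rfl

theorem shift_cont (hV : ∀ x, ‖V x‖ ≤ ‖x‖) (F : DD V) : Continuous fun t => shift hV t F := by
  refine continuous_iff_continuousAt.mpr fun t0 => ?_
  rw [ContinuousAt, tendsto_iff_norm_sub_tendsto_zero]
  have h1 : Continuous fun t : ℝ => ∫ s in (0 : ℝ)..1,
      ‖F.f (s + max t 0) - F.f (s + max t0 0)‖ ^ 2 :=
    intervalIntegral.continuous_parametric_intervalIntegral_of_continuous' (by fun_prop) 0 1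
  have h2 := (Real.continuous_sqrt.comp h1).tendsto t0
  simp only [Function.comp_apply, sub_self, norm_zero, ne_eq, OfNat.ofNat_ne_zero,
    not_false_eq_true, zero_pow, intervalIntegral.integral_zero, Real.sqrt_zero] at h2
  refine h2.congr fun t => ?_
  rw [Function.comp_apply, Real.sqrt_eq_iff_eq_sq
    (intervalIntegral.integral_nonneg zero_le_one fun s _ => sq_nonneg _) (norm_nonneg _),
    DD.norm_sq]
  rfl

theorem bump (hV : ∀ x, ‖V x‖ ≤ ‖x‖) (h : H) : ∃ F : DD V, ∀ s ∈ Set.Icc (0 : ℝ) 1,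
    F.f s = ((Real.sin (Real.pi * s) ^ 2 : ℝ) : ℂ) • h := by
  have hVn : ∀ n : ℕ, ‖(V ^ n) h‖ ≤ ‖h‖ := by
    intro n
    induction n with
    | zero => simp
    | succ n ih =>
      rw [pow_succ']
      exact (hV _).trans ih
  have hχ : Continuous fun s : ℝ => ((Real.sin (Real.pi * s) ^ 2 : ℝ) : ℂ) := by fun_prop
  have hc : Continuous fun s : ℝ =>
      ((Real.sin (Real.pi * s) ^ 2 : ℝ) : ℂ) • (V ^ ⌊s⌋.toNat) h := by
    refine continuous_iff_continuousAt.mpr fun s0 => ?_
    by_cases h0 : s0 = ⌊s0⌋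
    · have h1 : Real.sin (Real.pi * s0) = 0 := by
        rw [h0, mul_comm]
        exact Real.sin_int_mul_pi _
      rw [ContinuousAt, h1]
      simp only [ne_eq, OfNat.ofNat_ne_zero, not_false_eq_true, zero_pow, Complex.ofReal_zero,
        zero_smul]
      refine squeeze_zero_norm (a := fun s => ‖((Real.sin (Real.pi * s) ^ 2 : ℝ) : ℂ)‖ * ‖h‖)
        (fun s => ?_) ?_
      · rw [norm_smul]
        exact mul_le_mul_of_nonneg_left (hVn _) (norm_nonneg _)
      · have h2 : Continuous fun s : ℝ => ‖((Real.sin (Real.pi * s) ^ 2 : ℝ) : ℂ)‖ * ‖h‖ :=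
          hχ.norm.mul continuous_const
        have := h2.tendsto s0
        rw [h1] at this
        simpa only [ne_eq, OfNat.ofNat_ne_zero, not_false_eq_true, zero_pow, Complex.ofReal_zero,
          norm_zero, zero_mul] using this
    · have h1 : ∀ᶠ s in 𝓝 s0, ⌊s⌋ = ⌊s0⌋ := by
        filter_upwards [Ioo_mem_nhds (lt_of_le_of_ne (Int.floor_le s0) (Ne.symm h0))
          (Int.lt_floor_add_one s0)] with s hs
        exact Int.floor_eq_iff.mpr ⟨hs.1.le, hs.2⟩
      refine (hχ.smul (continuous_const (y := (V ^ ⌊s0⌋.toNat) h))).continuousAt.congr ?_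
      filter_upwards [h1] with s hs
      rw [hs]
      rfl
  refine ⟨(⟨⟨_, hc⟩, fun s hs => ?_⟩ : DSub V), fun s hs => ?_⟩
  · have h1 : ⌊s + 1⌋.toNat = ⌊s⌋.toNat + 1 := by
      have := Int.floor_nonneg.mpr hs
      rw [Int.floor_add_one]
      omega
    simp only [ContinuousMap.coe_mk]
    rw [h1, pow_succ' V, map_smul, mul_add, mul_one, Real.sin_add_pi, neg_sq]
    rfl
  · change ((Real.sin (Real.pi * s) ^ 2 : ℝ) : ℂ) • (V ^ ⌊s⌋.toNat) h = _
    rcases eq_or_lt_of_le hs.2 with h1 | h1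
    · simp [h1]
    · rw [Int.floor_eq_zero_iff.mpr ⟨hs.1, h1⟩]
      simp

theorem embed (hV : ∀ x, ‖V x‖ ≤ ‖x‖) (m : ℝ) (hm0 : 0 < m)
    (hm : ∀ z : ℂ, ‖z‖ < 1 → ∀ x, m * (1 - ‖z‖) * ‖x‖ ≤ ‖z • x - V x‖)
    (hb : ∀ ε : ℝ, 0 < ε → ∃ (n : ℕ) (x : H), ‖(V ^ n) x‖ < ε * ‖x‖) :
    ¬ (∀ (H : Type) [NormedAddCommGroup H] [InnerProductSpace ℂ H] [CompleteSpace H]
      (T : ℝ → H →L[ℂ] H),
      T 0 = ContinuousLinearMap.id ℂ H →
      (∀ s t : ℝ, 0 ≤ s → 0 ≤ t → T (s + t) = (T s).comp (T t)) →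
      (∀ x : H, ContinuousOn (fun t : ℝ => T t x) (Set.Ici 0)) →
      (∀ t : ℝ, 0 ≤ t → ‖T t‖ ≤ 1) →
      ∀ m : ℝ, 0 < m →
      (∀ x y : H,
        Filter.Tendsto (fun h : ℝ => ((h : ℂ)⁻¹) • (T h x - x))
          (nhdsWithin 0 (Set.Ioi 0)) (nhds y) →
        ∀ μ : ℂ, μ.re < 0 → m * |μ.re| * ‖x‖ ≤ ‖μ • x - y‖) →
      ∃ m₁ : ℝ, 0 < m₁ ∧ ∀ t : ℝ, 0 ≤ t → ∀ x : H, m₁ * ‖x‖ ≤ ‖T t x‖) := by
  intro hall
  set T : ℝ → UniformSpace.Completion (DD V) →L[ℂ] UniformSpace.Completion (DD V) :=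
    fun t => (shift hV t).completion with hT
  have hTc : ∀ t (F : DD V), T t F = (shift hV t F : DD V) := fun t F =>
    ContinuousLinearMap.completion_apply_coe _ _
  have h0 : T 0 = ContinuousLinearMap.id ℂ _ := by
    ext x
    refine UniformSpace.Completion.induction_on x (isClosed_eq (T 0).continuous
      (ContinuousLinearMap.id ℂ _).continuous) fun F => ?_
    rw [hTc, ContinuousLinearMap.id_apply]
    congr 1
    exact DD.ext' fun s => by simp [shift_f]
  have hadd : ∀ s t : ℝ, 0 ≤ s → 0 ≤ t → T (s + t) = (T s).comp (T t) := by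
    intro s t hs ht
    ext x
    refine UniformSpace.Completion.induction_on x (isClosed_eq (T (s + t)).continuous
      ((T s).comp (T t)).continuous) fun F => ?_
    rw [ContinuousLinearMap.comp_apply, hTc, hTc, hTc]
    congr 1
    refine DD.ext' fun u => ?_
    simp only [shift_f, max_eq_left hs, max_eq_left ht, max_eq_left (add_nonneg hs ht), add_assoc]
  have hn : ∀ t x, ‖T t x‖ ≤ ‖x‖ := by
    intro t x
    refine UniformSpace.Completion.induction_on x (isClosed_le (T t).continuous.norm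
      continuous_norm) fun F => ?_
    rw [hTc, UniformSpace.Completion.norm_coe, UniformSpace.Completion.norm_coe]
    exact (shiftL_norm hV t F).trans (one_mul _).le
  have hc : ∀ x, Continuous fun t => T t x := by
    intro x
    obtain ⟨u, hu, hux⟩ := mem_closure_iff_seq_limit.mp (UniformSpace.Completion.denseRange_coe x)
    choose F hF using hu
    refine TendstoUniformly.continuous (F := fun n t => T t (u n)) (p := atTop) ?_
      (Frequently.of_forall fun n => ?_)
    · rw [Metric.tendstoUniformly_iff]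
      intro ε hε
      filter_upwards [Metric.tendsto_nhds.mp hux ε hε] with n hn' t
      rw [dist_comm, dist_eq_norm, ← map_sub]
      rw [dist_eq_norm] at hn'
      exact (hn t _).trans_lt hn'
    · simp only [← hF n, hTc]
      exact (UniformSpace.Completion.continuous_coe _).comp (shift_cont hV _)
  have hn' : ∀ t : ℝ, 0 ≤ t → ‖T t‖ ≤ 1 := fun t _ =>
    ContinuousLinearMap.opNorm_le_bound _ zero_le_one fun x => by rw [one_mul]; exact hn t x
  have h1 : ∀ z : ℂ, ‖z‖ < 1 → ∀ x, m * (1 - ‖z‖) * ‖x‖ ≤ ‖z • x - T 1 x‖ := by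
    intro z hz x
    refine UniformSpace.Completion.induction_on x (isClosed_le (continuous_const.mul
      continuous_norm) ((continuous_id.const_smul z).sub (T 1).continuous).norm) fun F => ?_
    have hp : 0 ≤ m * (1 - ‖z‖) := mul_nonneg hm0.le (by linarith)
    rw [hTc, ← UniformSpace.Completion.coe_smul, ← UniformSpace.Completion.coe_sub,
      UniformSpace.Completion.norm_coe, UniformSpace.Completion.norm_coe,
      ← sq_le_sq₀ (by positivity) (norm_nonneg _), mul_pow, DD.norm_sq, DD.norm_sq,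
      ← intervalIntegral.integral_const_mul]
    refine intervalIntegral.integral_mono_on zero_le_one
      ((continuous_const.mul (F.f.continuous.norm.pow 2)).intervalIntegrable _ _)
      (((z • F - shift hV 1 F).f.continuous.norm.pow 2).intervalIntegrable _ _) fun s hs => ?_
    rw [DD.sub_f, DD.smul_f, shift_f, max_eq_left zero_le_one, F.prop s hs.1, ← mul_pow]
    exact pow_le_pow_left₀ (by positivity) (hm z hz _) 2
  obtain ⟨m1, hm1, h2⟩ := hall _ T h0 hadd (fun x => (hc x).continuousOn) hn' m hm0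
    (gen_bound T h0 hadd (fun x => (hc x).continuousOn) hn' m h1)
  obtain ⟨n, x, hx⟩ := hb m1 hm1
  obtain ⟨F, hF⟩ := bump hV x
  have h3 := h2 n (Nat.cast_nonneg n) F
  rw [hTc, UniformSpace.Completion.norm_coe, UniformSpace.Completion.norm_coe,
    ← sq_le_sq₀ (by positivity) (norm_nonneg _), mul_pow, DD.norm_sq, DD.norm_sq] at h3
  have h4 : ∀ (k : ℕ) (s : ℝ), 0 ≤ s → F.f (s + k) = (V ^ k) (F.f s) := by
    intro k s hs
    induction k with
    | zero => simp
    | succ k ih =>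
      rw [Nat.cast_succ, ← add_assoc, F.prop _ (by positivity), ih, pow_succ']
      rfl
  have h5 : ∀ y : H, ∀ G : ℝ → H, (∀ s ∈ Set.Icc (0 : ℝ) 1,
      G s = ((Real.sin (Real.pi * s) ^ 2 : ℝ) : ℂ) • y) → ∫ s in (0 : ℝ)..1, ‖G s‖ ^ 2 =
        (∫ s in (0 : ℝ)..1, (Real.sin (Real.pi * s) ^ 2) ^ 2) * ‖y‖ ^ 2 := by
    intro y G hG
    rw [← intervalIntegral.integral_mul_const]
    refine intervalIntegral.integral_congr fun s hs => ?_
    rw [Set.uIcc_of_le zero_le_one] at hs
    simp only [hG s hs]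
    rw [norm_smul, mul_pow, Complex.norm_real, Real.norm_eq_abs, sq_abs]
  rw [h5 x F.f hF, h5 ((V ^ n) x) (shift hV n F).f (fun s hs => by
    rw [shift_f, max_eq_left (Nat.cast_nonneg n), h4 n s hs.1, hF s hs, map_smul])] at h3
  have h6 : 0 < ∫ s in (0 : ℝ)..1, (Real.sin (Real.pi * s) ^ 2) ^ 2 := by
    refine intervalIntegral.intervalIntegral_pos_of_pos_on
      (Continuous.intervalIntegrable (by fun_prop) _ _) (fun s hs => ?_) zero_lt_one
    have := Real.sin_pos_of_pos_of_lt_pi (mul_pos Real.pi_pos hs.1)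
      (mul_lt_of_lt_one_right Real.pi_pos hs.2)
    positivity
  have h7 := pow_lt_pow_left₀ hx (norm_nonneg _) two_ne_zero
  rw [mul_pow] at h7
  nlinarith

end Pool.Agent.H810Z.LB
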